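import Pool.Agent.Helper34.PG.Harris

/-!
# PG-A2: Harris' inequality for functions of finitely many weights
-/

set_option autoImplicit false

namespace Pool.Agent.Helper34.PG

open MeasureTheory ProbabilityTheory Pool.Agent.Helper79.GR

variable {Ω : Type*} [MeasurableSpace Ω] {d : ℕ} {P : Measure Ω} {X : Edge d → Ω → ℝ}
  {ν : Measure ℝ} {a b : ℝ}

/-- extension of finitely many weights, clamped to `[a, b]` -/
private noncomputable def ex (a b : ℝ) (S : Finset (Edge d)) (g : Fin S.card → ℝ) :
    Edge d → ℝ :=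
  fun e => open Classical in if he : e ∈ S then max a (min b (g (S.equivFin ⟨e, he⟩))) else b

private theorem ex_mem (a b : ℝ) (S : Finset (Edge d)) (g : Fin S.card → ℝ) {e : Edge d}
    (he : e ∈ S) : ex a b S g e = max a (min b (g (S.equivFin ⟨e, he⟩))) := by
  rw [ex, dif_pos he]

private theorem ex_not (a b : ℝ) (S : Finset (Edge d)) (g : Fin S.card → ℝ) {e : Edge d}
    (he : e ∉ S) : ex a b S g e = b := by
  rw [ex, dif_neg he]

private theorem ex_meas (a b : ℝ) (S : Finset (Edge d)) : Measurable (ex a b S) := by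
  classical
  rw [measurable_pi_iff]
  intro e
  by_cases he : e ∈ S
  · have : (fun g : Fin S.card → ℝ => ex a b S g e) =
        fun g => max a (min b (g (S.equivFin ⟨e, he⟩))) := by
      funext g
      exact ex_mem a b S g he
    rw [this]
    exact measurable_const.max (measurable_const.min (measurable_pi_apply _))
  · have : (fun g : Fin S.card → ℝ => ex a b S g e) = fun _ => b := by
      funext g
      exact ex_not a b S g he
    rw [this]
    exact measurable_const

private theorem ex_mono (a b : ℝ) (S : Finset (Edge d)) {g g' : Fin S.card → ℝ} (h : g ≤ g')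
    (e : Edge d) : ex a b S g e ≤ ex a b S g' e := by
  by_cases he : e ∈ S
  · rw [ex_mem a b S g he, ex_mem a b S g' he]
    exact max_le_max le_rfl (min_le_min le_rfl (h _))
  · rw [ex_not a b S g he, ex_not a b S g' he]

private theorem ex_bd (ha : 0 < a) (hab : ∀ _ : Edge d, a ≤ b) (S : Finset (Edge d))
    (g : Fin S.card → ℝ) : Bd a b (ex a b S g) := by
  refine ⟨ha, fun e => ?_⟩
  by_cases he : e ∈ S
  · rw [ex_mem a b S g he]
    exact ⟨le_max_left _ _, max_le (hab e) (min_le_left _ _)⟩
  · rw [ex_not a b S g he]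
    exact ⟨hab e, le_refl _⟩

/-- Harris' inequality for functions of the weights which depend on finitely many edges only -/
theorem harris_env (h : Env P X ν a b) (S : Finset (Edge d)) (F G : (Edge d → ℝ) → ℝ)
    (mF : Measurable F) (mG : Measurable G) (C : ℝ) (hFC : ∀ c, Bd a b c → |F c| ≤ C)
    (hGC : ∀ c, Bd a b c → |G c| ≤ C)
    (hF : ∀ c c', Bd a b c → Bd a b c' → (∀ e, c e ≤ c' e) → F c' ≤ F c)
    (hG : ∀ c c', Bd a b c → Bd a b c' → (∀ e, c e ≤ c' e) → G c' ≤ G c)
    (hFS : ∀ c c', Bd a b c → Bd a b c' → (∀ e ∈ S, c e = c' e) → F c = F c')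
    (hGS : ∀ c c', Bd a b c → Bd a b c' → (∀ e ∈ S, c e = c' e) → G c = G c') :
    (∫ ω, F (cf X ω) ∂P) * ∫ ω, G (cf X ω) ∂P ≤ ∫ ω, F (cf X ω) * G (cf X ω) ∂P := by
  have := h.prob
  have hne : Nonempty Ω := by
    by_contra hcon
    rw [not_nonempty_iff] at hcon
    have h1 : P Set.univ = 1 := measure_univ
    rw [Set.univ_eq_empty_iff.2 hcon, measure_empty] at h1
    exact zero_ne_one h1
  obtain ⟨ω₀⟩ := hne
  have hab : ∀ _ : Edge d, a ≤ b := fun e => (h.bd e ω₀).1.trans (h.bd e ω₀).2
  set Y : Fin S.card → Ω → ℝ := fun i => X (S.equivFin.symm i).1 with hY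
  have hYm : ∀ i, Measurable (Y i) := fun i => h.meas _
  have hind : iIndepFun Y P := by
    refine h.indep.precomp (g := fun i => (S.equivFin.symm i).1) ?_
    intro i j hij
    exact S.equivFin.symm.injective (Subtype.ext hij)
  have hmap := hind.map_fun_eq_pi_map (fun i => (hYm i).aemeasurable)
  have hprob : ∀ i, IsProbabilityMeasure (P.map (Y i)) := fun i =>
    Measure.isProbabilityMeasure_map (hYm i).aemeasurable
  have hYY : Measurable fun ω i => Y i ω := measurable_pi_iff.2 hYm
  have hEx : ∀ ω, ∀ e ∈ S, cf X ω e = ex a b S (fun i => Y i ω) e := by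
    intro ω e he
    rw [ex_mem a b S _ he]
    have h1 : Y (S.equivFin ⟨e, he⟩) ω = X e ω := by
      rw [hY]
      show X (S.equivFin.symm (S.equivFin ⟨e, he⟩)).1 ω = X e ω
      rw [Equiv.symm_apply_apply]
    rw [h1, min_eq_right (h.bd e ω).2, max_eq_right (h.bd e ω).1]
    rfl
  have key : ∀ (U : (Edge d → ℝ) → ℝ), Measurable U →
      (∀ c c', Bd a b c → Bd a b c' → (∀ e ∈ S, c e = c' e) → U c = U c') →
      ∫ ω, U (cf X ω) ∂P = ∫ g, U (ex a b S g) ∂(Measure.pi fun i => P.map (Y i)) := by
    intro U mU hU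
    rw [← hmap]
    have h1 := integral_map (μ := P) hYY.aemeasurable
      (f := fun g => U (ex a b S g)) (mU.comp (ex_meas a b S)).aestronglyMeasurable
    rw [h1]
    refine integral_congr_ae (Filter.Eventually.of_forall fun ω => ?_)
    exact hU _ _ (h.cf_bd ω) (ex_bd h.apos hab S _) (hEx ω)
  rw [key F mF hFS, key G mG hGS, key (fun c => F c * G c) (mF.mul mG)
    (fun c c' hc hc' hcc => by
      show F c * G c = F c' * G c'
      rw [hFS c c' hc hc' hcc, hGS c c' hc hc' hcc])]
  exact harris_fin S.card (fun i => P.map (Y i)) hprob (fun g => F (ex a b S g))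
    (fun g => G (ex a b S g))
    (fun g g' hg => hF _ _ (ex_bd h.apos hab S _) (ex_bd h.apos hab S _) (ex_mono a b S hg))
    (fun g g' hg => hG _ _ (ex_bd h.apos hab S _) (ex_bd h.apos hab S _) (ex_mono a b S hg))
    (mF.comp (ex_meas a b S)) (mG.comp (ex_meas a b S)) C
    (fun g => hFC _ (ex_bd h.apos hab S _)) (fun g => hGC _ (ex_bd h.apos hab S _))

end Pool.Agent.Helper34.PG
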