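import Pool.Agent.Helper34.PG.HarrisEnv
import Pool.Agent.Helper33.PG.Upd
import Pool.Agent.Helper79.PG.Defs

/-!
# PG-A: the annealed passage time and the annealed norms
-/

set_option autoImplicit false

namespace Pool.Agent.Helper34.PG

open MeasureTheory ProbabilityTheory Filter
open Pool.Agent.Helper79.GR Pool.Agent.Helper79.GQ Pool.Agent.Helper79.PG

variable {Ω : Type*} [MeasurableSpace Ω] {d : ℕ} {P : Measure Ω} {X : Edge d → Ω → ℝ}
  {ν : Measure ℝ} {a b B : ℝ} {φ : F d →ₗ[ℝ] ℝ} {v : F d} {s s₀ : ℝ}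

theorem measurable_expT (h : Env P X ν a b) (l : ℝ) (x y : V d) :
    Measurable fun ω => Real.exp (-(l * T (cf X ω) x y)) :=
  Real.measurable_exp.comp ((measurable_T h x y).const_mul l).neg

theorem T_nonneg {c : Edge d → ℝ} (h : Bd a b c) (x y : V d) : 0 ≤ T c x y :=
  (mul_nonneg h.1.le (n1_nonneg _)).trans (le_T h x y)

theorem expT_le_one (h : Env P X ν a b) {l : ℝ} (hl : 0 ≤ l) (x y : V d) (ω : Ω) :
    Real.exp (-(l * T (cf X ω) x y)) ≤ 1 := by
  rw [Real.exp_le_one_iff]
  have := mul_nonneg hl (T_nonneg (h.cf_bd ω) x y)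
  linarith

theorem integrable_expT' (h : Env P X ν a b) (l : ℝ) (x y : V d) :
    Integrable (fun ω => Real.exp (-(l * T (cf X ω) x y))) P := by
  have := h.prob
  refine Integrable.of_bound (measurable_expT h l x y).aestronglyMeasurable
    (Real.exp (|l| * (b * n1 (y - x)))) (Filter.Eventually.of_forall fun ω => ?_)
  rw [Real.norm_eq_abs, abs_of_nonneg (Real.exp_pos _).le]
  refine Real.exp_le_exp.2 ?_
  have h1 := T_nonneg (h.cf_bd ω) x y
  have h2 := T_le (h.cf_bd ω) x y
  calc -(l * T (cf X ω) x y) ≤ |l| * T (cf X ω) x y := by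
        have := mul_le_mul_of_nonneg_right (neg_le_abs l) h1
        linarith
    _ ≤ |l| * (b * n1 (y - x)) := mul_le_mul_of_nonneg_left h2 (abs_nonneg l)

theorem integrable_expT (h : Env P X ν a b) {l : ℝ} (_ : 0 ≤ l) (x y : V d) :
    Integrable (fun ω => Real.exp (-(l * T (cf X ω) x y))) P := integrable_expT' h l x y

/-- stationarity -/
theorem ea_shift (h : Env P X ν a b) (l : ℝ) (x y : V d) :
    ∫ ω, Real.exp (-(l * T (cf X ω) x y)) ∂P = ea P X l (y - x) := by
  have h1 := ((identDistrib_T h x 0 (y - x)).comp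
    (u := fun t : ℝ => Real.exp (-(l * t))) (by fun_prop)).integral_eq
  simp only [Function.comp_def, zero_add, sub_add_cancel] at h1
  exact h1

theorem ea_neg (h : Env P X ν a b) (l : ℝ) (x : V d) : ea P X l (-x) = ea P X l x := by
  have h1 := ea_shift h l x 0
  rw [zero_sub] at h1
  rw [← h1]
  unfold ea
  simp only [T_symm _ x 0]

theorem exp_le_ea (h : Env P X ν a b) {l : ℝ} (hl : 0 ≤ l) (x : V d) :
    Real.exp (-(l * (b * n1 x))) ≤ ea P X l x := by
  have := h.prob
  have h1 : ∫ _ω : Ω, Real.exp (-(l * (b * n1 (x - 0)))) ∂P =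
      Real.exp (-(l * (b * n1 x))) := by simp
  rw [← h1]
  refine integral_mono (integrable_const _) (integrable_expT h hl 0 x) fun ω => ?_
  refine Real.exp_le_exp.2 (neg_le_neg ?_)
  exact mul_le_mul_of_nonneg_left (T_le (h.cf_bd ω) 0 x) hl

theorem ea_le_exp (h : Env P X ν a b) {l : ℝ} (hl : 0 ≤ l) (x : V d) :
    ea P X l x ≤ Real.exp (-(l * (a * n1 x))) := by
  have := h.prob
  have h1 : ∫ _ω : Ω, Real.exp (-(l * (a * n1 (x - 0)))) ∂P =
      Real.exp (-(l * (a * n1 x))) := by simp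
  rw [← h1]
  refine integral_mono (integrable_expT h hl 0 x) (integrable_const _) fun ω => ?_
  refine Real.exp_le_exp.2 (neg_le_neg ?_)
  exact mul_le_mul_of_nonneg_left (le_T (h.cf_bd ω) 0 x) hl

theorem ea_pos (h : Env P X ν a b) (l : ℝ) (x : V d) : 0 < ea P X l x := by
  have := h.prob
  exact integral_exp_pos (integrable_expT' h l 0 x)

theorem ea_le_one (h : Env P X ν a b) {l : ℝ} (hl : 0 ≤ l) (x : V d) : ea P X l x ≤ 1 := by
  refine (ea_le_exp h hl x).trans ?_
  rw [Real.exp_le_one_iff]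
  have := mul_nonneg hl (mul_nonneg h.apos.le (n1_nonneg x))
  linarith

/-- Harris -/
theorem ea_mul_le (h : Env P X ν a b) {l : ℝ} (hl : 0 ≤ l) (x y : V d) :
    ea P X l x * ea P X l y ≤ ea P X l (x + y) := by
  have := h.prob
  classical
  obtain ⟨L, hL⟩ := exists_nat_ge ((b * n1 (x - 0)) / a)
  obtain ⟨L', hL'⟩ := exists_nat_ge ((b * n1 ((x + y) - x)) / a)
  have hL1 : b * n1 (x - 0) ≤ a * L := by
    rw [div_le_iff₀ h.apos] at hL
    linarith
  have hL2 : b * n1 ((x + y) - x) ≤ a * L' := by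
    rw [div_le_iff₀ h.apos] at hL'
    linarith
  have m1 : ∀ x y : V d, Measurable fun c : Edge d → ℝ => Real.exp (-(l * T c x y)) :=
    fun x y => Real.measurable_exp.comp ((measurable_T_cfg x y).const_mul l).neg
  have hbd : ∀ (x y : V d) (c : Edge d → ℝ), Bd a b c →
      |Real.exp (-(l * T c x y))| ≤ 1 := by
    intro x y c hc
    rw [abs_of_nonneg (Real.exp_pos _).le, Real.exp_le_one_iff]
    have := mul_nonneg hl (T_nonneg hc x y)
    linarith
  have hmo : ∀ (x y : V d) (c c' : Edge d → ℝ), Bd a b c → Bd a b c' → (∀ e, c e ≤ c' e) →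
      Real.exp (-(l * T c' x y)) ≤ Real.exp (-(l * T c x y)) := by
    intro x y c c' hc hc' hcc
    refine Real.exp_le_exp.2 (neg_le_neg ?_)
    exact mul_le_mul_of_nonneg_left (Pool.Agent.Helper33.PG.T_mono hc hc' hcc x y) hl
  have h1 := harris_env h (box 0 L ∪ box x L') (fun c => Real.exp (-(l * T c 0 x)))
    (fun c => Real.exp (-(l * T c x (x + y)))) (m1 0 x) (m1 x (x + y)) 1 (hbd 0 x)
    (hbd x (x + y)) (hmo 0 x) (hmo x (x + y))
    (fun c c' hc hc' hcc => by
      rw [T_congr hc hc' 0 x L hL1 fun e he => hcc e (Finset.mem_union_left _ he)])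
    (fun c c' hc hc' hcc => by
      rw [T_congr hc hc' x (x + y) L' hL2 fun e he => hcc e (Finset.mem_union_right _ he)])
  have h2 := ea_shift h l x (x + y)
  rw [add_sub_cancel_left] at h2
  rw [← h2]
  refine h1.trans ?_
  refine integral_mono ?_ (integrable_expT h hl 0 (x + y)) fun ω => ?_
  · refine Integrable.of_bound
      ((measurable_expT h l 0 x).mul (measurable_expT h l x (x + y))).aestronglyMeasurable 1
      (Filter.Eventually.of_forall fun ω => ?_)
    rw [Real.norm_eq_abs, abs_mul, abs_of_nonneg (Real.exp_pos _).le,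
      abs_of_nonneg (Real.exp_pos _).le]
    exact mul_le_one₀ (expT_le_one h hl 0 x ω) (Real.exp_pos _).le
      (expT_le_one h hl x (x + y) ω)
  · show Real.exp (-(l * T (cf X ω) 0 x)) * Real.exp (-(l * T (cf X ω) x (x + y))) ≤
      Real.exp (-(l * T (cf X ω) 0 (x + y)))
    rw [← Real.exp_add]
    refine Real.exp_le_exp.2 ?_
    have h2 := mul_le_mul_of_nonneg_left (T_triangle (h.cf_bd ω) 0 x (x + y)) hl
    linarith

theorem ea_eq_exp (h : Env P X ν a b) {l : ℝ} (hl : 0 < l) (x : V d) :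
    ea P X l x = Real.exp (-(l * al P X l x)) := by
  have h1 : -(l * al P X l x) = Real.log (ea P X l x) := by
    unfold al
    field_simp
  rw [h1, Real.exp_log (ea_pos h l x)]

theorem al_le_iff (h : Env P X ν a b) {l : ℝ} (hl : 0 < l) (x : V d) (t : ℝ) :
    al P X l x ≤ t ↔ Real.exp (-(l * t)) ≤ ea P X l x := by
  rw [ea_eq_exp h hl x, Real.exp_le_exp, neg_le_neg_iff, mul_le_mul_iff_right₀ hl]

theorem le_al_iff (h : Env P X ν a b) {l : ℝ} (hl : 0 < l) (x : V d) (t : ℝ) :
    t ≤ al P X l x ↔ ea P X l x ≤ Real.exp (-(l * t)) := by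
  rw [ea_eq_exp h hl x, Real.exp_le_exp, neg_le_neg_iff, mul_le_mul_iff_right₀ hl]

theorem subM_al (h : Env P X ν a b) {l : ℝ} (hl : 0 < l) : SubM a b (al P X l) := by
  refine ⟨h.apos, fun x y => ?_, fun x => ?_, fun x => ?_⟩
  · rw [al_le_iff h hl, mul_add, neg_add, Real.exp_add, ← ea_eq_exp h hl, ← ea_eq_exp h hl]
    exact ea_mul_le h hl.le x y
  · rw [le_al_iff h hl]
    exact ea_le_exp h hl.le x
  · rw [al_le_iff h hl]
    exact exp_le_ea h hl.le x

/-- Jensen -/
theorem al_le (h : Env P X ν a b) {l : ℝ} (hl : 0 < l) (x : V d) : al P X l x ≤ mm P X x := by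
  have := h.prob
  rw [al_le_iff h hl]
  have h1 : -(l * mm P X x) = ∫ ω, -(l * T (cf X ω) 0 x) ∂P := by
    rw [integral_neg, integral_const_mul]
    rfl
  rw [h1]
  exact convexOn_exp.map_integral_le Real.continuous_exp.continuousOn isClosed_univ
    (Filter.Eventually.of_forall fun ω => Set.mem_univ _)
    ((integrable_T h 0 x).const_mul l).neg (integrable_expT h hl.le 0 x)

/-- Jensen again -/
theorem al_anti (h : Env P X ν a b) {l l' : ℝ} (hl : 0 < l) (hll : l ≤ l') (x : V d) :
    al P X l' x ≤ al P X l x := by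
  have := h.prob
  have hl' : 0 < l' := hl.trans_le hll
  rw [al_le_iff h hl']
  have h1 : 1 ≤ l' / l := by rwa [one_le_div hl]
  have h2 : (ea P X l x) ^ (l' / l) ≤ ea P X l' x := by
    have h3 := (convexOn_rpow h1).map_integral_le (μ := P)
      (f := fun ω => Real.exp (-(l * T (cf X ω) 0 x)))
      (Real.continuous_rpow_const (by positivity)).continuousOn isClosed_Ici
      (Filter.Eventually.of_forall fun ω => (Real.exp_pos _).le) (integrable_expT h hl.le 0 x)
      (by
        refine (integrable_expT h hl'.le 0 x).congr (Filter.Eventually.of_forall fun ω => ?_)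
        show Real.exp (-(l' * T (cf X ω) 0 x)) =
          (Real.exp (-(l * T (cf X ω) 0 x))) ^ (l' / l)
        rw [← Real.exp_mul]
        congr 1
        field_simp)
    refine h3.trans (le_of_eq ?_)
    refine integral_congr_ae (Filter.Eventually.of_forall fun ω => ?_)
    show (Real.exp (-(l * T (cf X ω) 0 x))) ^ (l' / l) = Real.exp (-(l' * T (cf X ω) 0 x))
    rw [← Real.exp_mul]
    congr 1
    field_simp
  refine le_trans (le_of_eq ?_) h2
  rw [ea_eq_exp h hl, ← Real.exp_mul]
  congr 1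
  field_simp

theorem al_neg (h : Env P X ν a b) (l : ℝ) (x : V d) : al P X l (-x) = al P X l x := by
  unfold al
  rw [ea_neg h]

theorem nl_rv_le (h : Env P X ν a b) {l : ℝ} (hl : 0 < l) (x : V d) :
    nl P X l (rv x) ≤ al P X l x := by
  have h1 := mul_tc_le (subM_al h hl) x 1
  simpa [nl] using h1

theorem ea_le (h : Env P X ν a b) {l : ℝ} (hl : 0 < l) (x : V d) :
    ea P X l x ≤ Real.exp (-(l * nl P X l (rv x))) := by
  rw [ea_eq_exp h hl, Real.exp_le_exp, neg_le_neg_iff]
  exact mul_le_mul_of_nonneg_left (nl_rv_le h hl x) hl.le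

theorem tc_mono {a b a' b' : ℝ} {m m' : V d → ℝ} (h : SubM a b m) (h' : SubM a' b' m')
    (hm : ∀ v, m v ≤ m' v) (x : F d) : tc m x ≤ tc m' x := by
  refine le_of_tendsto_of_tendsto (tendsto_tc h x) (tendsto_tc h' x)
    (Filter.Eventually.of_forall fun n => ?_)
  exact div_le_div_of_nonneg_right (hm _) (Nat.cast_nonneg n)

theorem nl_le (h : Env P X ν a b) {l : ℝ} (hl : 0 < l) (x : F d) :
    nl P X l x ≤ tc (mm P X) x :=
  tc_mono (subM_al h hl) (subM_mm h) (al_le h hl) x

theorem nl_anti (h : Env P X ν a b) {l l' : ℝ} (hl : 0 < l) (hll : l ≤ l') (x : F d) :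
    nl P X l' x ≤ nl P X l x :=
  tc_mono (subM_al h (hl.trans_le hll)) (subM_al h hl) (al_anti h hl hll) x

theorem le_nl (h : Env P X ν a b) {l : ℝ} (hl : 0 < l) (x : F d) : a * nr x ≤ nl P X l x :=
  le_tc (subM_al h hl) x

theorem nl_le_nr (h : Env P X ν a b) {l : ℝ} (hl : 0 < l) (x : F d) : nl P X l x ≤ b * nr x :=
  tc_le (subM_al h hl) x

theorem nl_add (h : Env P X ν a b) {l : ℝ} (hl : 0 < l) (x y : F d) :
    nl P X l (x + y) ≤ nl P X l x + nl P X l y := tc_add_le (subM_al h hl) x y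

theorem nl_smul (h : Env P X ν a b) {l : ℝ} (hl : 0 < l) {t : ℝ} (ht : 0 ≤ t) (x : F d) :
    nl P X l (t • x) = t * nl P X l x := tc_smul (subM_al h hl) t ht x

/-- the average of `al` along the multiples converges to the annealed norm -/
theorem tendsto_al (h : Env P X ν a b) {l : ℝ} (hl : 0 < l) (x : F d) :
    Tendsto (fun n : ℕ => al P X l (fl n x) / n) atTop (nhds (nl P X l x)) :=
  tendsto_tc (subM_al h hl) x

end Pool.Agent.Helper34.PG
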