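import Pool.Agent.Helper79.GQ.LH

/-!
# PG-A1: Harris' inequality for finite products of laws on the line
-/

set_option autoImplicit false

namespace Pool.Agent.Helper34.PG

open MeasureTheory ProbabilityTheory

/-- Chebyshev's association inequality -/
private theorem cheb (μ : Measure ℝ) [IsProbabilityMeasure μ] (f g : ℝ → ℝ) (hf : Antitone f)
    (hg : Antitone g) (C : ℝ) (hfC : ∀ x, |f x| ≤ C) (hgC : ∀ x, |g x| ≤ C) :
    (∫ x, f x ∂μ) * ∫ x, g x ∂μ ≤ ∫ x, f x * g x ∂μ := by
  have mf := hf.measurable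
  have mg := hg.measurable
  have hC : 0 ≤ C := (abs_nonneg _).trans (hfC 0)
  have hi : ∀ {u v : ℝ × ℝ → ℝ}, Measurable u → Measurable v → (∀ z, |u z| ≤ C) →
      (∀ z, |v z| ≤ C) → Integrable (fun z => u z * v z) (μ.prod μ) := by
    intro u v hu hv hu' hv'
    refine Integrable.of_bound (hu.mul hv).aestronglyMeasurable (C * C)
      (Filter.Eventually.of_forall fun z => ?_)
    rw [Real.norm_eq_abs, abs_mul]
    exact mul_le_mul (hu' z) (hv' z) (abs_nonneg _) hC
  have m1 : Measurable fun z : ℝ × ℝ => f z.1 := mf.comp measurable_fst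
  have m2 : Measurable fun z : ℝ × ℝ => f z.2 := mf.comp measurable_snd
  have m3 : Measurable fun z : ℝ × ℝ => g z.1 := mg.comp measurable_fst
  have m4 : Measurable fun z : ℝ × ℝ => g z.2 := mg.comp measurable_snd
  have i11 := hi m1 m3 (fun z => hfC _) (fun z => hgC _)
  have i12 := hi m1 m4 (fun z => hfC _) (fun z => hgC _)
  have i21 := hi m2 m3 (fun z => hfC _) (fun z => hgC _)
  have i22 := hi m2 m4 (fun z => hfC _) (fun z => hgC _)
  have h0 : 0 ≤ ∫ z, (f z.1 - f z.2) * (g z.1 - g z.2) ∂(μ.prod μ) := by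
    refine integral_nonneg fun z => ?_
    show 0 ≤ (f z.1 - f z.2) * (g z.1 - g z.2)
    rcases le_total z.1 z.2 with h | h
    · exact mul_nonneg (sub_nonneg.2 (hf h)) (sub_nonneg.2 (hg h))
    · exact mul_nonneg_of_nonpos_of_nonpos (sub_nonpos.2 (hf h)) (sub_nonpos.2 (hg h))
  have h1 : ∫ z, (f z.1 - f z.2) * (g z.1 - g z.2) ∂(μ.prod μ) =
      ∫ z, f z.1 * g z.1 ∂(μ.prod μ) - ∫ z, f z.1 * g z.2 ∂(μ.prod μ) -
        ∫ z, f z.2 * g z.1 ∂(μ.prod μ) + ∫ z, f z.2 * g z.2 ∂(μ.prod μ) := by
    have j1 : Integrable (fun z : ℝ × ℝ => f z.1 * g z.1 - f z.1 * g z.2) (μ.prod μ) :=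
      i11.sub i12
    have j2 : Integrable (fun z : ℝ × ℝ => f z.1 * g z.1 - f z.1 * g z.2 - f z.2 * g z.1)
        (μ.prod μ) := j1.sub i21
    rw [← integral_sub i11 i12, ← integral_sub j1 i21, ← integral_add j2 i22]
    refine integral_congr_ae (Filter.Eventually.of_forall fun z => ?_)
    show (f z.1 - f z.2) * (g z.1 - g z.2) = _
    ring
  have e11 : ∫ z, f z.1 * g z.1 ∂(μ.prod μ) = ∫ x, f x * g x ∂μ := by
    have := integral_prod_mul (μ := μ) (ν := μ) (fun x => f x * g x) (fun _ => (1 : ℝ))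
    simpa using this
  have e22 : ∫ z, f z.2 * g z.2 ∂(μ.prod μ) = ∫ x, f x * g x ∂μ := by
    have := integral_prod_mul (μ := μ) (ν := μ) (fun _ => (1 : ℝ)) (fun x => f x * g x)
    simpa using this
  have e12 : ∫ z, f z.1 * g z.2 ∂(μ.prod μ) = (∫ x, f x ∂μ) * ∫ x, g x ∂μ :=
    integral_prod_mul f g
  have e21 : ∫ z, f z.2 * g z.1 ∂(μ.prod μ) = (∫ x, f x ∂μ) * ∫ x, g x ∂μ := by
    have := integral_prod_mul (μ := μ) (ν := μ) g f
    rw [mul_comm (∫ x, f x ∂μ), ← this]
    refine integral_congr_ae (Filter.Eventually.of_forall fun z => ?_)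
    exact mul_comm _ _
  rw [h1, e11, e22, e12, e21] at h0
  linarith

private theorem int_succ {n : ℕ} (μ : Fin (n + 1) → Measure ℝ)
    [∀ i, IsProbabilityMeasure (μ i)] (F : (Fin (n + 1) → ℝ) → ℝ) (mF : Measurable F) (C : ℝ)
    (hF : ∀ x, |F x| ≤ C) :
    ∫ x, F x ∂(Measure.pi μ) =
      ∫ t, ∫ x, F (Fin.cons t x) ∂(Measure.pi fun i : Fin n => μ i.succ) ∂(μ 0) := by
  have hp := measurePreserving_piFinSuccAbove μ 0
  have h1 := hp.integral_comp' (g := fun z : ℝ × (Fin n → ℝ) => F (Fin.cons z.1 z.2))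
  have h2 : ∀ x : Fin (n + 1) → ℝ,
      (fun z : ℝ × (Fin n → ℝ) => F (Fin.cons z.1 z.2))
        (MeasurableEquiv.piFinSuccAbove (fun _ => ℝ) 0 x) = F x := by
    intro x
    show F (Fin.cons (x 0) (fun j => x (Fin.succAbove 0 j))) = F x
    congr 1
    funext i
    refine Fin.cases ?_ (fun j => ?_) i
    · rfl
    · simp
  simp only [h2] at h1
  rw [h1]
  have h3 : (fun j : Fin n => μ (Fin.succAbove 0 j)) = fun i : Fin n => μ i.succ := by
    funext j
    simp
  rw [h3]
  refine integral_prod _ ?_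
  refine Integrable.of_bound (mF.comp ?_).aestronglyMeasurable C
    (Filter.Eventually.of_forall fun z => ?_)
  · rw [measurable_pi_iff]
    intro i
    refine Fin.cases ?_ (fun j => ?_) i
    · exact measurable_fst
    · show Measurable fun z : ℝ × (Fin n → ℝ) => z.2 j
      exact (measurable_pi_apply j).comp measurable_snd
  · rw [Real.norm_eq_abs]
    exact hF _

theorem harris_fin : ∀ (n : ℕ) (μ : Fin n → Measure ℝ) (_ : ∀ i, IsProbabilityMeasure (μ i))
    (f g : (Fin n → ℝ) → ℝ) (_ : Antitone f) (_ : Antitone g) (_ : Measurable f)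
    (_ : Measurable g) (C : ℝ) (_ : ∀ x, |f x| ≤ C) (_ : ∀ x, |g x| ≤ C),
    (∫ x, f x ∂(Measure.pi μ)) * ∫ x, g x ∂(Measure.pi μ) ≤
      ∫ x, f x * g x ∂(Measure.pi μ) := by
  intro n
  induction n with
  | zero =>
    intro μ _ f g hf hg mf mg C hfC hgC
    have h1 : ∀ u : (Fin 0 → ℝ) → ℝ, ∫ x, u x ∂(Measure.pi μ) = u 0 := by
      intro u
      have : u = fun _ => u 0 := by
        funext x
        rw [Subsingleton.elim x 0]
      rw [this]
      simp
    rw [h1, h1, h1]
  | succ n ih =>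
    intro μ hμ f g hf hg mf mg C hfC hgC
    have hC : 0 ≤ C := (abs_nonneg _).trans (hfC 0)
    have hcons : ∀ t : ℝ, Measurable fun x : Fin n → ℝ => (Fin.cons t x : Fin (n + 1) → ℝ) := by
      intro t
      rw [measurable_pi_iff]
      intro i
      refine Fin.cases ?_ (fun j => ?_) i
      · exact measurable_const
      · exact measurable_pi_apply j
    have hmono : ∀ {s t : ℝ} {x y : Fin n → ℝ}, s ≤ t → x ≤ y →
        (Fin.cons s x : Fin (n + 1) → ℝ) ≤ Fin.cons t y := by
      intro s t x y hst hxy i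
      refine Fin.cases ?_ (fun j => ?_) i
      · exact hst
      · exact hxy j
    have hfg : ∀ x, |f x * g x| ≤ C * C := by
      intro x
      rw [abs_mul]
      exact mul_le_mul (hfC x) (hgC x) (abs_nonneg _) hC
    have hint : ∀ {u : (Fin (n + 1) → ℝ) → ℝ} {D : ℝ}, Measurable u → (∀ x, |u x| ≤ D) → ∀ t,
        Integrable (fun x : Fin n → ℝ => u (Fin.cons t x))
          (Measure.pi fun i : Fin n => μ i.succ) := by
      intro u D hu hD t
      refine Integrable.of_bound (hu.comp (hcons t)).aestronglyMeasurable D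
        (Filter.Eventually.of_forall fun x => ?_)
      rw [Real.norm_eq_abs]
      exact hD _
    set F : ℝ → ℝ := fun t => ∫ x, f (Fin.cons t x) ∂(Measure.pi fun i : Fin n => μ i.succ)
      with hF
    set G : ℝ → ℝ := fun t => ∫ x, g (Fin.cons t x) ∂(Measure.pi fun i : Fin n => μ i.succ)
      with hG
    have hbd : ∀ {u : (Fin (n + 1) → ℝ) → ℝ} {D : ℝ}, (∀ x, |u x| ≤ D) → ∀ t,
        |∫ x, u (Fin.cons t x) ∂(Measure.pi fun i : Fin n => μ i.succ)| ≤ D := by
      intro u D hD t
      have h1 := norm_integral_le_of_norm_le_const (μ := Measure.pi fun i : Fin n => μ i.succ)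
        (f := fun x => u (Fin.cons t x)) (C := D)
        (Filter.Eventually.of_forall fun x => by rw [Real.norm_eq_abs]; exact hD _)
      simpa using h1
    have hFa : Antitone F := by
      intro s t hst
      exact integral_mono (hint mf hfC t) (hint mf hfC s) fun x => hf (hmono hst le_rfl)
    have hGa : Antitone G := by
      intro s t hst
      exact integral_mono (hint mg hgC t) (hint mg hgC s) fun x => hg (hmono hst le_rfl)
    have h1 := cheb (μ 0) F G hFa hGa C (hbd hfC) (hbd hgC)
    rw [int_succ μ f mf C hfC, int_succ μ g mg C hgC,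
      int_succ μ (fun x => f x * g x) (mf.mul mg) (C * C) hfg]
    refine h1.trans ?_
    have hcons2 : Measurable fun z : ℝ × (Fin n → ℝ) => (Fin.cons z.1 z.2 : Fin (n + 1) → ℝ) := by
      rw [measurable_pi_iff]
      intro i
      refine Fin.cases ?_ (fun j => ?_) i
      · exact measurable_fst
      · show Measurable fun z : ℝ × (Fin n → ℝ) => z.2 j
        exact (measurable_pi_apply j).comp measurable_snd
    have hI : Integrable (fun t => ∫ x, f (Fin.cons t x) * g (Fin.cons t x)
        ∂(Measure.pi fun i : Fin n => μ i.succ)) (μ 0) := by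
      have m : StronglyMeasurable fun t => ∫ x, f (Fin.cons t x) * g (Fin.cons t x)
          ∂(Measure.pi fun i : Fin n => μ i.succ) :=
        StronglyMeasurable.integral_prod_right'
          (f := fun z : ℝ × (Fin n → ℝ) => f (Fin.cons z.1 z.2) * g (Fin.cons z.1 z.2))
          ((mf.comp hcons2).mul (mg.comp hcons2)).stronglyMeasurable
      refine Integrable.of_bound m.aestronglyMeasurable (C * C)
        (Filter.Eventually.of_forall fun t => ?_)
      rw [Real.norm_eq_abs]
      exact hbd (u := fun x => f x * g x) hfg t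
    have hJ : Integrable (fun t => F t * G t) (μ 0) := by
      refine Integrable.of_bound (hFa.measurable.mul hGa.measurable).aestronglyMeasurable (C * C)
        (Filter.Eventually.of_forall fun t => ?_)
      rw [Real.norm_eq_abs, abs_mul]
      exact mul_le_mul (hbd hfC t) (hbd hgC t) (abs_nonneg _) hC
    refine integral_mono hJ hI fun t => ?_
    exact ih (fun i : Fin n => μ i.succ) (fun i => hμ i.succ) (fun x => f (Fin.cons t x))
      (fun x => g (Fin.cons t x)) (fun x y hxy => hf (hmono le_rfl hxy))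
      (fun x y hxy => hg (hmono le_rfl hxy)) (mf.comp (hcons t)) (mg.comp (hcons t)) C
      (fun x => hfC _) (fun x => hgC _)

end Pool.Agent.Helper34.PG
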